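import Pool.Agent.H31.PC.Targets
import Pool.Agent.H31.PC.Alg

/-!
# Rational points on plane curves (MP_6e60ff_nt): row FIB
-/

namespace Pool.Agent.H90.PCFIB

open Finset MvPolynomial Pool.Agent.H31.PC Pool.Agent.H31.RZ

attribute [local irreducible] FF

theorem mF {e R : ℕ} {f : MvPolynomial (Fin 3) ℤ} :
    f ∈ FF 2 e R ↔ f.IsHomogeneous e ∧ ∀ μ, |f.coeff μ| ≤ R := mem_FF

theorem FF_mono {e R R' : ℕ} (h : R ≤ R') {f : MvPolynomial (Fin 3) ℤ}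
    (hf : f ∈ FF 2 e R) : f ∈ FF 2 e R' := by
  rw [mF] at hf ⊢
  exact ⟨hf.1, fun μ => (hf.2 μ).trans (by exact_mod_cast h)⟩

theorem FF_sub {e R : ℕ} {f g : MvPolynomial (Fin 3) ℤ} (hf : f ∈ FF 2 e R)
    (hg : g ∈ FF 2 e R) : f - g ∈ FF 2 e (2 * R) := by
  rw [mF] at hf hg ⊢
  refine ⟨hf.1.sub hg.1, fun μ => ?_⟩
  rw [coeff_sub]
  have h1 := hf.2 μ
  have h2 := hg.2 μ
  have h3 := abs_sub (f.coeff μ) (g.coeff μ)
  push_cast
  linarith

theorem abs_one {t : ℤ} (h : t ^ 2 = 1) : |t| = 1 := by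
  have h1 : |t| ^ 2 = 1 := by rw [sq_abs, h]
  nlinarith [abs_nonneg t]

theorem MM_le {K : ℕ} {a b s s' : ℤ} (ha : |a| ≤ K) (hb : |b| ≤ K) (hs : |s| ≤ K)
    (hs' : |s'| ≤ K) (i j : Fin 3) : |MM a b s s' i j| ≤ ((K + 1 : ℕ) : ℤ) := by
  have h0 : (0 : ℤ) ≤ K := by positivity
  push_cast
  rw [MM]
  fin_cases i <;> fin_cases j <;> simp <;> linarith

theorem MI_le {K : ℕ} {a b s s' : ℤ} (ha : |a| ≤ K) (hb : |b| ≤ K) (hs : |s| ≤ K)
    (hs' : |s'| ≤ K) (h : (s' - s) ^ 2 = 1) (i j : Fin 3) :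
    |MI a b s s' i j| ≤ (((K + 2) ^ 2 : ℕ) : ℤ) := by
  have h0 : (0 : ℤ) ≤ K := by positivity
  have h1 := abs_one h
  have h2 : |s * a - b| ≤ K * K + K := by
    have := abs_sub (s * a) b
    rw [abs_mul] at this
    have h3 : |s| * |a| ≤ K * K := mul_le_mul hs ha (abs_nonneg _) h0
    linarith
  have h3 : |b - s' * a| ≤ K * K + K := by
    have := abs_sub b (s' * a)
    rw [abs_mul] at this
    have h3 : |s'| * |a| ≤ K * K := mul_le_mul hs' ha (abs_nonneg _) h0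
    linarith
  have h4 : |s - s'| = 1 := by rw [abs_sub_comm, h1]
  obtain ⟨B, hB⟩ : ∃ B : ℤ, (((K + 2) ^ 2 : ℕ) : ℤ) = B := ⟨_, rfl⟩
  have hB1 : (K : ℤ) * K + K + 1 ≤ B := by
    rw [← hB]
    push_cast
    nlinarith
  have hB2 : (K : ℤ) ≤ B := by nlinarith
  have hB3 : (1 : ℤ) ≤ B := by nlinarith
  rw [hB, MI]
  fin_cases i <;> fin_cases j <;> simp [abs_mul, h1, h4] <;> linarith

theorem pf_FIB (h1 : T_TR) (h2 : T_DIV) : T_FIB := by
  intro d K hd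
  obtain ⟨A, hA⟩ : ∃ A : ℕ, A = NN 2 d * (3 * (K + 1)) ^ d := ⟨_, rfl⟩
  obtain ⟨B, hB⟩ : ∃ B : ℕ, B = NN 2 (d - 1) * (3 * (K + 2) ^ 2) ^ (d - 1) := ⟨_, rfl⟩
  refine ⟨B * (A * 2) + 1, Nat.le_add_left _ _, ?_⟩
  intro R a b s s' ha hb hs hs' hss x φ hx
  obtain ⟨L, hL⟩ : ∃ L : Finset (MvPolynomial (Fin 3) ℤ),
    L = Lam (d - 1) ((B * (A * 2) + 1) * R) x := ⟨_, rfl⟩
  rw [← hL]
  obtain ⟨S, hS⟩ : ∃ S : Set (MvPolynomial (Fin 3) ℤ),
    S = {f | f ∈ FF 2 d R ∧ eval x f = 0 ∧ ln a b s f = φ} := ⟨_, rfl⟩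
  rw [← hS]
  rcases S.eq_empty_or_nonempty with he | ⟨f0, hf0⟩
  · rw [he, Set.ncard_empty]
    exact Nat.zero_le _
  have hS1 : ∀ f ∈ S, f ∈ FF 2 d R := fun f hf => by rw [hS] at hf; exact hf.1
  have hS2 : ∀ f ∈ S, eval x f = 0 := fun f hf => by rw [hS] at hf; exact hf.2.1
  have hS3 : ∀ f ∈ S, ln a b s f = φ := fun f hf => by rw [hS] at hf; exact hf.2.2
  have key : ∀ f ∈ S, ∃ h ∈ L,
      tr (MM a b s s') (f - f0) = X 0 * tr (MM a b s s') h := by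
    intro f hf
    have hsub : f - f0 ∈ FF 2 d (2 * R) := FF_sub (hS1 f hf) (hS1 f0 hf0)
    have hP : tr (MM a b s s') (f - f0) ∈ FF 2 d (A * (2 * R)) := by
      rw [hA]
      exact h1 d (K + 1) (2 * R) _ _ (MM_le ha hb hs hs') hsub
    have hr : r0 (tr (MM a b s s') (f - f0)) = 0 := by
      rw [r0_tr, map_sub, hS3 f hf, hS3 f0 hf0, sub_self]
    have hc : ∀ μ : Fin 3 →₀ ℕ, μ 0 = 0 → (tr (MM a b s s') (f - f0)).coeff μ = 0 :=
      fun μ hμ => coeff_of_r0 (mF.1 hP).1 hr μ hμ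
    have hd' : d - 1 + 1 = d := by omega
    obtain ⟨h, hh, hPh⟩ := h2 (d - 1) (A * (2 * R))
      (tr (MM a b s s') (f - f0)) 0 (by rw [hd']; exact hP) hc
    have hback : tr (MM a b s s') (tr (MI a b s s') h) = h := by
      rw [tr_tr, MI_MM hss, tr_one]
    have hL1 : tr (MI a b s s') h ∈ FF 2 (d - 1) ((B * (A * 2) + 1) * R) := by
      have h4 := h1 (d - 1) ((K + 2) ^ 2) _ _ _ (MI_le ha hb hs hs' hss) hh
      rw [← hB] at h4
      refine FF_mono (Nat.le.intro (k := R) ?_) h4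
      ring
    have hL2 : eval x (tr (MI a b s s') h) = 0 := by
      rw [eval_tr]
      have h5 : eval ((MI a b s s').mulVec x) (tr (MM a b s s') (f - f0)) = 0 := by
        rw [eval_tr, Matrix.mulVec_mulVec, MM_MI hss, Matrix.one_mulVec, map_sub, hS2 f hf,
          hS2 f0 hf0, sub_self]
      rw [hPh, map_mul, eval_X] at h5
      exact (mul_eq_zero.1 h5).resolve_left hx
    refine ⟨tr (MI a b s s') h, ?_, ?_⟩
    · rw [hL, Lam]
      exact Finset.mem_filter.2 ⟨hL1, hL2⟩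
    · rw [hback]
      exact hPh
  choose! g hg1 hg2 using key
  rw [← Set.ncard_coe_finset]
  refine Set.ncard_le_ncard_of_injOn g (fun f hf => hg1 f hf) ?_ (Finset.finite_toSet _)
  intro f hf f' hf' hff
  have h6 : tr (MM a b s s') (f - f0) = tr (MM a b s s') (f' - f0) := by
    rw [hg2 f hf, hg2 f' hf', hff]
  have h7 : tr (MI a b s s') (tr (MM a b s s') (f - f0)) =
    tr (MI a b s s') (tr (MM a b s s') (f' - f0)) := by rw [h6]
  rw [tr_tr, tr_tr, MM_MI hss, tr_one, tr_one] at h7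
  exact sub_left_injective h7

end Pool.Agent.H90.PCFIB
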