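import Pool.Agent.H31.PC.Targets
import Pool.Agent.H31.PC.Alg

/-!
# Rational points on plane curves (MP_6e60ff_nt): row IRR
-/

namespace Pool.Agent.H90.PCIRR

open Finset MvPolynomial Pool.Agent.H31.PC Pool.Agent.H31.RZ

attribute [local irreducible] FF

section Field

variable {k : Type*} [Field k]

/-- the exponent of the dehomogenized monomial -/
noncomputable def ex (μ : Fin 3 →₀ ℕ) : Fin 2 →₀ ℕ := Finsupp.equivFunOnFinite.symm ![μ 2, μ 1]

theorem ex_zero (μ : Fin 3 →₀ ℕ) : ex μ 0 = μ 2 := rfl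
theorem ex_one (μ : Fin 3 →₀ ℕ) : ex μ 1 = μ 1 := rfl

theorem ex_deg (μ : Fin 3 →₀ ℕ) : (ex μ).degree = μ 2 + μ 1 := by
  rw [Finsupp.degree_eq_sum, Fin.sum_univ_two, ex_zero, ex_one]

theorem Mon_deg {e : ℕ} (μ : Mon 2 e) : (μ.1 : Fin 3 →₀ ℕ) 0 + (μ.1 : Fin 3 →₀ ℕ) 1 +
    (μ.1 : Fin 3 →₀ ℕ) 2 = e := by
  have h := mem_Mon.1 μ.2
  rw [Finsupp.degree_eq_sum, Fin.sum_univ_three] at h
  exact h

theorem ex_inj {e : ℕ} {μ ν : Mon 2 e} (h : ex μ.1 = ex ν.1) : μ = ν := by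
  have h1 : (μ.1 : Fin 3 →₀ ℕ) 2 = (ν.1 : Fin 3 →₀ ℕ) 2 := by
    rw [← ex_zero, ← ex_zero]
    exact congrArg (fun t : Fin 2 →₀ ℕ => t 0) h
  have h2 : (μ.1 : Fin 3 →₀ ℕ) 1 = (ν.1 : Fin 3 →₀ ℕ) 1 := by
    rw [← ex_one, ← ex_one]
    exact congrArg (fun t : Fin 2 →₀ ℕ => t 1) h
  have h3 := Mon_deg μ
  have h4 := Mon_deg ν
  apply Subtype.ext
  exact (eq_mo (by omega) h2 h1).trans
    (eq_mo (i := (ν.1 : Fin 3 →₀ ℕ) 0) rfl rfl rfl).symm

/-- polynomials in two variables with given coefficients -/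
noncomputable def ps (e : ℕ) (c : Mon 2 e → k) : MvPolynomial (Fin 2) k :=
  ∑ μ, monomial (ex μ.1) (c μ)

theorem coeff_ps {e : ℕ} (c : Mon 2 e → k) (ν : Mon 2 e) : (ps e c).coeff (ex ν.1) = c ν := by
  classical
  rw [ps, coeff_sum, Finset.sum_eq_single ν]
  · rw [coeff_monomial, if_pos rfl]
  · intro μ _ hμ
    rw [coeff_monomial, if_neg]
    intro h
    exact hμ (ex_inj h)
  · intro h
    exact absurd (Finset.mem_univ ν) h

theorem deg_ps {e : ℕ} (c : Mon 2 e → k) : (ps e c).totalDegree ≤ e := by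
  rw [ps]
  refine totalDegree_finsetSum_le fun μ _ => ?_
  refine (totalDegree_monomial_le _ _).trans ?_
  have h1 : ((ex μ.1).sum fun _ => id) = (ex μ.1).degree := by
    rw [Finsupp.degree_eq_sum, Finsupp.sum_fintype _ _ (fun _ => rfl)]
    rfl
  rw [h1, ex_deg]
  have h3 := Mon_deg μ
  omega

theorem exists_ps {e : ℕ} {G : MvPolynomial (Fin 2) k} (hG : G.totalDegree ≤ e) :
    ∃ c, ps e c = G := by
  classical
  refine ⟨fun μ => G.coeff (ex μ.1), ?_⟩
  ext ν
  by_cases hν : ν 0 + ν 1 ≤ e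
  · have hm : mo (e - ν 0 - ν 1) (ν 1) (ν 0) ∈ Mon 2 e := by
      rw [mem_Mon]
      refine (mo_deg _ _ _).trans ?_
      omega
    have hex : ex (mo (e - ν 0 - ν 1) (ν 1) (ν 0)) = ν := by
      ext t
      fin_cases t
      · rfl
      · rfl
    have h1 := coeff_ps (fun μ : Mon 2 e => G.coeff (ex μ.1)) ⟨_, hm⟩
    simp only at h1
    rw [hex] at h1
    exact h1
  · have h1 : ∀ P : MvPolynomial (Fin 2) k, P.totalDegree ≤ e → P.coeff ν = 0 := by
      intro P hP
      apply coeff_eq_zero_of_totalDegree_lt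
      have h2 : ∑ i ∈ ν.support, ν i = ν 0 + ν 1 := by
        rw [← Fin.sum_univ_two (f := fun i => ν i)]
        exact Finset.sum_subset (Finset.subset_univ _) fun i _ hi =>
          Finsupp.notMem_support_iff.1 hi
      rw [h2]
      omega
    rw [h1 _ (deg_ps _), h1 _ hG]

/-- dehomogenization -/
noncomputable def dl : MvPolynomial (Fin 3) k →ₐ[k] MvPolynomial (Fin 2) k :=
  aeval ![1, X 1, X 0]

/-- the linear change of variables -/
noncomputable def sg (a b : k) : MvPolynomial (Fin 3) k →ₐ[k] MvPolynomial (Fin 3) k :=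
  aeval ![X 0 + C a * X 2, X 1 + C b * X 2, X 2]

theorem dl_eq {d : ℕ} {F : MvPolynomial (Fin 3) k} (hF : F.IsHomogeneous d) :
    dl F = ps d fun μ => F.coeff μ.1 := by
  classical
  have h1 : F = ∑ μ : Mon 2 d, monomial μ.1 (F.coeff μ.1) := by
    ext ν
    rw [coeff_sum]
    by_cases hν : ν ∈ Mon 2 d
    · rw [Finset.sum_eq_single ⟨ν, hν⟩]
      · rw [coeff_monomial, if_pos rfl]
      · intro μ _ hμ
        rw [coeff_monomial, if_neg]
        intro h
        exact hμ (Subtype.ext h)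
      · intro h
        exact absurd (Finset.mem_univ _) h
    · rw [hF.coeff_eq_zero fun h => hν (mem_Mon.2 h), Finset.sum_eq_zero]
      intro μ _
      rw [coeff_monomial, if_neg]
      intro h
      exact hν (h ▸ μ.2)
  conv_lhs => rw [h1]
  rw [map_sum, ps]
  refine Finset.sum_congr rfl fun μ _ => ?_
  rw [dl, aeval_monomial, Finsupp.prod_fintype _ _ (fun i => pow_zero _), Fin.prod_univ_three,
    monomial_eq, Finsupp.prod_fintype _ _ (fun i => pow_zero _), Fin.prod_univ_two, ex_zero,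
    ex_one]
  simp only [Matrix.cons_val_zero, Matrix.cons_val_one, Matrix.cons_val, one_pow, one_mul,
    algebraMap_eq]
  ring

theorem dl_inj {d : ℕ} {F : MvPolynomial (Fin 3) k} (hF : F.IsHomogeneous d) (h : dl F = 0) :
    F = 0 := by
  rw [dl_eq hF] at h
  ext μ
  rw [coeff_zero]
  by_cases hμ : μ ∈ Mon 2 d
  · rw [← coeff_ps (fun μ : Mon 2 d => F.coeff μ.1) ⟨μ, hμ⟩, h, coeff_zero]
  · exact hF.coeff_eq_zero fun h => hμ (mem_Mon.2 h)

theorem sg_sg (a b : k) (F : MvPolynomial (Fin 3) k) : sg (-a) (-b) (sg a b F) = F := by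
  have h : (sg (-a) (-b)).comp (sg a b) = AlgHom.id k _ := by
    apply MvPolynomial.algHom_ext
    intro i
    rw [AlgHom.comp_apply, AlgHom.id_apply, sg, sg]
    fin_cases i
    · simp
    · simp
    · simp
  exact congrArg (fun g => g F) h

theorem sg_hom {a b : k} {F : MvPolynomial (Fin 3) k} {d : ℕ} (h : F.IsHomogeneous d) :
    (sg a b F).IsHomogeneous d := by
  have h1 : ∀ i, (![X 0 + C a * X 2, X 1 + C b * X 2, X 2] i :
      MvPolynomial (Fin 3) k).IsHomogeneous 1 := by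
    intro i
    fin_cases i
    · exact (isHomogeneous_X _ _).add (isHomogeneous_C_mul_X _ _)
    · exact (isHomogeneous_X _ _).add (isHomogeneous_C_mul_X _ _)
    · exact isHomogeneous_X _ _
  have h2 := h.aeval _ h1
  rw [one_mul] at h2
  exact h2

end Field

theorem de_eq (p : ℕ) [Fact p.Prime] (a b : ZMod p) (F : MvPolynomial (Fin 3) (ZMod p)) :
    de p a b F = dl (sg a b F) := by
  have h : de p a b = (dl).comp (sg a b) := by
    apply MvPolynomial.algHom_ext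
    intro i
    rw [AlgHom.comp_apply, de, dl, sg]
    fin_cases i
    · simp
    · simp
    · simp
  rw [h, AlgHom.comp_apply]

theorem de_inj {p : ℕ} [Fact p.Prime] {a b : ZMod p} {d : ℕ}
    {F F' : MvPolynomial (Fin 3) (ZMod p)} (hF : F.IsHomogeneous d) (hF' : F'.IsHomogeneous d)
    (h : de p a b F = de p a b F') : F = F' := by
  have h1 : dl (sg a b (F - F')) = 0 := by
    rw [← de_eq, map_sub, h, sub_self]
  have h2 := dl_inj (sg_hom (hF.sub hF')) h1
  have h3 := sg_sg a b (F - F')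
  rw [h2, map_zero] at h3
  exact sub_eq_zero.1 h3.symm

theorem de_deg {p : ℕ} [Fact p.Prime] {a b : ZMod p} {d : ℕ}
    {F : MvPolynomial (Fin 3) (ZMod p)} (hF : F.IsHomogeneous d) :
    (de p a b F).totalDegree ≤ d := by
  rw [de_eq, dl_eq (sg_hom hF)]
  exact deg_ps _

theorem rp_inj {p d H : ℕ} (hp : 2 * H < p) {f g : MvPolynomial (Fin 3) ℤ}
    (hf : f ∈ FF 2 d H) (hg : g ∈ FF 2 d H) (h : rp p f = rp p g) : f = g := by
  have hf1 := (mem_FF.1 hf).2
  have hg1 := (mem_FF.1 hg).2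
  ext μ
  have h1 : ((f.coeff μ : ℤ) : ZMod p) = ((g.coeff μ : ℤ) : ZMod p) := by
    have h2 : (rp p f).coeff μ = (rp p g).coeff μ := by rw [h]
    rw [rp, coeff_map, coeff_map] at h2
    exact h2
  rw [ZMod.intCast_eq_intCast_iff_dvd_sub] at h1
  have h3 : g.coeff μ - f.coeff μ = 0 := by
    refine Int.eq_zero_of_abs_lt_dvd h1 ?_
    have h4 := abs_sub (g.coeff μ) (f.coeff μ)
    have h5 := hf1 μ
    have h6 := hg1 μ
    have h7 : (2 : ℤ) * H < p := by exact_mod_cast hp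
    linarith
  linarith

theorem nonunit_deg {p : ℕ} [Fact p.Prime] {R : MvPolynomial (Fin 2) (ZMod p)} (hR : R ≠ 0)
    (hu : ¬ IsUnit R) : 1 ≤ R.totalDegree := by
  by_contra hlt
  have h0 : R.totalDegree = 0 := by omega
  have h1 := totalDegree_eq_zero_iff_eq_C.1 h0
  apply hu
  rw [isUnit_iff_totalDegree_of_isReduced]
  refine ⟨?_, h0⟩
  rw [isUnit_iff_ne_zero]
  intro h2
  rw [h2, C_0] at h1
  exact hR h1

/-- the products of two non constant polynomials -/
theorem red_cases {p : ℕ} [Fact p.Prime] {d : ℕ} {G : MvPolynomial (Fin 2) (ZMod p)} (hG : G ≠ 0)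
    (hd : G.totalDegree ≤ d) (h : ¬ Irreducible G) : (∃ r, C r = G) ∨
    ∃ e, 1 ≤ e ∧ e ≤ d - 1 ∧ ∃ (c : Mon 2 e → ZMod p) (c' : Mon 2 (d - e) → ZMod p),
      ps e c * ps (d - e) c' = G := by
  by_cases hu : IsUnit G
  · left
    rw [isUnit_iff_totalDegree_of_isReduced, totalDegree_eq_zero_iff_eq_C] at hu
    exact ⟨_, hu.2.symm⟩
  · right
    rw [irreducible_iff] at h
    push Not at h
    obtain ⟨P, Q, hPQ, hP, hQ⟩ := h hu
    have hP0 : P ≠ 0 := by
      rintro rfl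
      rw [zero_mul] at hPQ
      exact hG hPQ
    have hQ0 : Q ≠ 0 := by
      rintro rfl
      rw [mul_zero] at hPQ
      exact hG hPQ
    have hdeg := totalDegree_mul_of_isDomain hP0 hQ0
    rw [← hPQ] at hdeg
    have h1 := nonunit_deg hP0 hP
    have h2 := nonunit_deg hQ0 hQ
    obtain ⟨c1, hc1⟩ := exists_ps (le_refl P.totalDegree)
    obtain ⟨c2, hc2⟩ := exists_ps (e := d - P.totalDegree) (G := Q) (by omega)
    exact ⟨P.totalDegree, h1, by omega, c1, c2, by rw [hc1, hc2, hPQ]⟩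

theorem num {d e N : ℕ} (hNN : T_NN) (hd : 3 ≤ d) (hN : N = NN 2 d) (h1 : 1 ≤ e)
    (h2 : e ≤ d - 1) : NN 2 e + NN 2 (d - e) ≤ N - 1 := by
  have hN2 : N * 2 = (d + 1) * (d + 2) := by rw [hN]; exact hNN d
  have h3 : NN 2 e * 2 = (e + 1) * (e + 2) := hNN e
  obtain ⟨f, hf⟩ : ∃ f, d = e + f := ⟨d - e, by omega⟩
  have hf2 : d - e = f := by omega
  have h4 : NN 2 f * 2 = (f + 1) * (f + 2) := hNN f
  rw [hf2]
  have hf1 : 1 ≤ f := by omega
  have h5 : 2 ≤ e * f := by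
    rcases (show e = 1 ∨ 2 ≤ e by omega) with h | h
    · rw [h, one_mul]
      omega
    · nlinarith
  have h6 : N * 2 + 2 = NN 2 e * 2 + NN 2 f * 2 + 2 * (e * f) := by
    rw [h3, h4, hN2, hf]
    ring
  omega

theorem exists_T {d N : ℕ} (hNN : T_NN) (hd : 3 ≤ d) (hN : N = NN 2 d) (p : ℕ) [Fact p.Prime] :
    ∃ T : Finset (MvPolynomial (Fin 2) (ZMod p)), #T ≤ d * p ^ (N - 1) ∧
      ∀ G : MvPolynomial (Fin 2) (ZMod p), G ≠ 0 → G.totalDegree ≤ d → ¬ Irreducible G →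
        G ∈ T := by
  classical
  have hp : p.Prime := Fact.out
  have hN2 : N * 2 = (d + 1) * (d + 2) := by rw [hN]; exact hNN d
  have hNge : 2 ≤ N := by nlinarith
  obtain ⟨B, hB⟩ : ∃ B : ℕ → Finset (MvPolynomial (Fin 2) (ZMod p)), ∀ e, B e =
      ((Finset.univ : Finset ((Mon 2 e → ZMod p) × (Mon 2 (d - e) → ZMod p))).image
        fun c => ps e c.1 * ps (d - e) c.2) := ⟨_, fun _ => rfl⟩
  obtain ⟨U, hU⟩ : ∃ U : Finset (MvPolynomial (Fin 2) (ZMod p)),
    U = (Finset.univ : Finset (ZMod p)).image (fun r => C r) := ⟨_, rfl⟩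
  have h1 : ∀ e ∈ Finset.Icc 1 (d - 1), #(B e) ≤ p ^ (N - 1) := by
    intro e he
    rw [Finset.mem_Icc] at he
    rw [hB]
    refine Finset.card_image_le.trans ?_
    rw [Finset.card_univ, Fintype.card_prod, Fintype.card_fun, Fintype.card_fun, ZMod.card,
      Fintype.card_coe, Fintype.card_coe, ← pow_add]
    exact Nat.pow_le_pow_right hp.pos (num hNN hd hN he.1 he.2)
  have h6 : #U ≤ p ^ (N - 1) := by
    rw [hU]
    refine Finset.card_image_le.trans ?_
    rw [Finset.card_univ, ZMod.card]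
    exact Nat.le_self_pow (by omega) p
  have h7 : #((Finset.Icc 1 (d - 1)).biUnion B) ≤ (d - 1) * p ^ (N - 1) := by
    refine Finset.card_biUnion_le.trans ((Finset.sum_le_card_nsmul _ _ _ h1).trans ?_)
    rw [Nat.card_Icc, smul_eq_mul, Nat.add_sub_cancel]
  refine ⟨U ∪ (Finset.Icc 1 (d - 1)).biUnion B, ?_, ?_⟩
  · calc _ ≤ #U + #((Finset.Icc 1 (d - 1)).biUnion B) := Finset.card_union_le _ _
      _ ≤ p ^ (N - 1) + (d - 1) * p ^ (N - 1) := Nat.add_le_add h6 h7
      _ = (1 + (d - 1)) * p ^ (N - 1) := by ring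
      _ = d * p ^ (N - 1) := by rw [show 1 + (d - 1) = d by omega]
  · intro G hG0 hGd hG
    rw [Finset.mem_union]
    rcases red_cases hG0 hGd hG with ⟨r, hr⟩ | ⟨e, he1, he2, c, c', hc⟩
    · left
      rw [hU, Finset.mem_image]
      exact ⟨r, Finset.mem_univ _, hr⟩
    · right
      rw [Finset.mem_biUnion]
      refine ⟨e, Finset.mem_Icc.2 ⟨he1, he2⟩, ?_⟩
      rw [hB, Finset.mem_image]
      exact ⟨(c, c'), Finset.mem_univ _, hc⟩

theorem pf_IRR (hNN : T_NN) : T_IRR := by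
  classical
  intro d K c hd
  refine ⟨K * K * (d * c ^ (NN 2 d - 1)), ?_⟩
  intro H p hH hp hHp hpc
  have : Fact p.Prime := ⟨hp⟩
  obtain ⟨N, hN⟩ : ∃ N : ℕ, N = NN 2 d := ⟨_, rfl⟩
  rw [← hN]
  obtain ⟨T, hT, hT2⟩ := exists_T hNN hd hN p
  -- the bad forms for one point
  have hone : ∀ a b : ℕ, #({f ∈ FF 2 d H | eval ![(a : ZMod p), (b : ZMod p), 1]
      (rp p f) ≠ 0 ∧ ¬ Irreducible (de p a b (rp p f))}) ≤ d * p ^ (N - 1) := by
    intro a b
    refine le_trans (Finset.card_le_card_of_injOn (fun f => de p a b (rp p f)) ?_ ?_) hT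
    · intro f hf
      rw [Finset.mem_coe, Finset.mem_filter] at hf
      have hF : (rp p f).IsHomogeneous d := (mem_FF.1 hf.1).1.map _
      refine hT2 _ ?_ (de_deg hF) hf.2.2
      intro h
      apply hf.2.1
      rw [de_inj (a := (a : ZMod p)) (b := (b : ZMod p)) hF (isHomogeneous_zero _ _ _)
        (h.trans (map_zero _).symm), map_zero]
    · intro f hf g hg hfg
      rw [Finset.mem_coe, Finset.mem_filter] at hf hg
      exact rp_inj hHp hf.1 hg.1 (de_inj ((mem_FF.1 hf.1).1.map _) ((mem_FF.1 hg.1).1.map _) hfg)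
  have hsub : {f : MvPolynomial (Fin 3) ℤ | f ∈ FF 2 d H ∧ ¬ ND p K f} ⊆
      (((Finset.range K ×ˢ Finset.range K).biUnion fun ab => {f ∈ FF 2 d H |
        eval ![(ab.1 : ZMod p), (ab.2 : ZMod p), 1] (rp p f) ≠ 0 ∧
          ¬ Irreducible (de p ab.1 ab.2 (rp p f))} : Finset _) : Set _) := by
    rintro f ⟨hf, hnd⟩
    rw [ND] at hnd
    push Not at hnd
    obtain ⟨a, b, ha, hb, he, hi⟩ := hnd
    rw [Finset.mem_coe, Finset.mem_biUnion]
    refine ⟨(a, b), Finset.mem_product.2 ⟨Finset.mem_range.2 ha, Finset.mem_range.2 hb⟩, ?_⟩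
    rw [Finset.mem_filter]
    exact ⟨hf, he, hi⟩
  refine (Set.ncard_le_ncard hsub (Finset.finite_toSet _)).trans ?_
  rw [Set.ncard_coe_finset]
  refine (Finset.card_biUnion_le.trans (Finset.sum_le_card_nsmul _ _ _
    fun ab _ => hone ab.1 ab.2)).trans ?_
  rw [Finset.card_product, Finset.card_range, smul_eq_mul]
  have h8 : p ^ (N - 1) ≤ (c * H) ^ (N - 1) := Nat.pow_le_pow_left hpc _
  calc K * K * (d * p ^ (N - 1)) ≤ K * K * (d * (c * H) ^ (N - 1)) :=
        Nat.mul_le_mul_left _ (Nat.mul_le_mul_left _ h8)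
    _ = K * K * (d * c ^ (N - 1)) * H ^ (N - 1) := by
        rw [mul_pow]
        ring

end Pool.Agent.H90.PCIRR
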