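import Pool.Agent.H31.PC.Targets

/-!
# Rational points on plane curves (MP_6e60ff_nt): row SUM
-/

namespace Pool.Agent.H90.PCSUM

open Finset Pool.Agent.H31.PC Pool.Agent.H31.RZ

theorem rd_dvd (q : ℤ) : rd q ∣ q.natAbs := Nat.prod_primeFactors_dvd _

theorem rd_pos (q : ℤ) : 1 ≤ rd q :=
  Finset.prod_pos fun _ hp => (Nat.prime_of_mem_primeFactors hp).pos

theorem rd_sq (q : ℤ) : Squarefree (rd q) := by
  refine Finset.squarefree_prod_of_pairwise_isCoprime (fun p hp p' hp' h ↦ ?_)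
    fun _ hp ↦ (Nat.prime_of_mem_primeFactors hp).prime.squarefree
  simp only [Function.onFun, ← Nat.coprime_iff_isRelPrime]
  exact (Nat.coprime_primes (Nat.prime_of_mem_primeFactors hp)
    (Nat.prime_of_mem_primeFactors hp')).mpr h

theorem gcd_rad {q s : ℕ} (hq : q ≠ 0) (hs : Squarefree s) :
    Nat.gcd q s ≤ Nat.gcd (∏ p ∈ q.primeFactors, p) s := by
  have h1 : Squarefree (Nat.gcd q s) := hs.squarefree_of_dvd (Nat.gcd_dvd_right _ _)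
  refine Nat.le_of_dvd (Nat.gcd_pos_of_pos_right _ (Nat.pos_of_ne_zero hs.ne_zero)) ?_
  refine Nat.dvd_gcd ?_ (Nat.gcd_dvd_right _ _)
  rw [← Nat.prod_primeFactors_of_squarefree h1]
  exact Finset.prod_dvd_prod_of_subset _ _ _ (Nat.primeFactors_mono (Nat.gcd_dvd_left _ _) hq)

/-- the sum of the greatest common divisors -/
theorem sum_gcd {CR η : ℝ} (h5 : ∀ k Y : ℕ, 1 ≤ Y →
    (#{q ∈ Finset.Icc 1 Y | ∏ p ∈ q.primeFactors, p = k} : ℝ) ≤ CR * (Y : ℝ) ^ η) (h8 : T_GS)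
    (hCR : 1 ≤ CR) {s Y : ℕ} (hs : Squarefree s) (hY : 1 ≤ Y) :
    ((∑ q ∈ Finset.Icc 1 Y with ∏ p ∈ q.primeFactors, p ≤ s, Nat.gcd q s : ℕ) : ℝ) ≤
      CR * (Y : ℝ) ^ η * (s * #s.divisors) := by
  have hmaps : ∀ q ∈ (Finset.Icc 1 Y).filter (fun q => ∏ p ∈ q.primeFactors, p ≤ s),
      ∏ p ∈ q.primeFactors, p ∈ Finset.Icc 1 s := by
    intro q hq
    rw [Finset.mem_filter] at hq
    exact Finset.mem_Icc.2 ⟨Finset.prod_pos fun _ hp => (Nat.prime_of_mem_primeFactors hp).pos,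
      hq.2⟩
  have h1 : ∑ q ∈ Finset.Icc 1 Y with ∏ p ∈ q.primeFactors, p ≤ s, Nat.gcd q s ≤
      ∑ k ∈ Finset.Icc 1 s, #{q ∈ Finset.Icc 1 Y | ∏ p ∈ q.primeFactors, p = k} *
        Nat.gcd k s := by
    rw [← Finset.sum_fiberwise_of_maps_to hmaps]
    refine Finset.sum_le_sum fun k _ => ?_
    have h2 : ∀ q ∈ {q ∈ {q ∈ Finset.Icc 1 Y | ∏ p ∈ q.primeFactors, p ≤ s} |
        ∏ p ∈ q.primeFactors, p = k}, Nat.gcd q s ≤ Nat.gcd k s := by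
      intro q hq
      rw [Finset.mem_filter, Finset.mem_filter, Finset.mem_Icc] at hq
      rw [← hq.2]
      exact gcd_rad (by omega) hs
    refine (Finset.sum_le_card_nsmul _ _ _ h2).trans ?_
    rw [smul_eq_mul]
    refine Nat.mul_le_mul_right _ (Finset.card_le_card ?_)
    intro q hq
    rw [Finset.mem_filter, Finset.mem_filter] at hq
    exact Finset.mem_filter.2 ⟨hq.1.1, hq.2⟩
  have hCY : 0 ≤ CR * (Y : ℝ) ^ η := by positivity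
  calc ((∑ q ∈ Finset.Icc 1 Y with ∏ p ∈ q.primeFactors, p ≤ s, Nat.gcd q s : ℕ) : ℝ)
      ≤ ((∑ k ∈ Finset.Icc 1 s, #{q ∈ Finset.Icc 1 Y | ∏ p ∈ q.primeFactors, p = k} *
        Nat.gcd k s : ℕ) : ℝ) := by exact_mod_cast h1
    _ = ∑ k ∈ Finset.Icc 1 s, (#{q ∈ Finset.Icc 1 Y | ∏ p ∈ q.primeFactors, p = k} : ℝ) *
        (Nat.gcd k s : ℝ) := by push_cast; rfl
    _ ≤ ∑ k ∈ Finset.Icc 1 s, CR * (Y : ℝ) ^ η * (Nat.gcd k s : ℝ) :=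
        Finset.sum_le_sum fun k _ => mul_le_mul_of_nonneg_right (h5 k Y hY) (by positivity)
    _ = CR * (Y : ℝ) ^ η * ((∑ k ∈ Finset.Icc 1 s, Nat.gcd k s : ℕ) : ℝ) := by
        rw [← Finset.mul_sum]
        push_cast
        rfl
    _ ≤ CR * (Y : ℝ) ^ η * (s * #s.divisors) := by
        refine mul_le_mul_of_nonneg_left ?_ hCY
        exact_mod_cast h8 s (Nat.pos_of_ne_zero hs.ne_zero)

/-- from integers to natural numbers -/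
theorem sum_int (s Y : ℕ) : ∑ u ∈ Finset.Icc (-(Y : ℤ)) Y with u ≠ 0 ∧ rd u ≤ s,
    Nat.gcd u.natAbs s ≤ 2 * ∑ q ∈ Finset.Icc 1 Y with ∏ p ∈ q.primeFactors, p ≤ s,
      Nat.gcd q s := by
  classical
  obtain ⟨F, hF⟩ : ∃ F : Finset ℕ, F = {q ∈ Finset.Icc 1 Y | ∏ p ∈ q.primeFactors, p ≤ s} :=
    ⟨_, rfl⟩
  rw [← hF]
  have hsub : {u ∈ Finset.Icc (-(Y : ℤ)) Y | u ≠ 0 ∧ rd u ≤ s} ⊆
      F.image (fun q : ℕ => (q : ℤ)) ∪ F.image (fun q : ℕ => -(q : ℤ)) := by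
    intro u hu
    rw [Finset.mem_filter, Finset.mem_Icc] at hu
    have h1 : u.natAbs ∈ F := by
      rw [hF, Finset.mem_filter, Finset.mem_Icc]
      refine ⟨⟨by omega, by omega⟩, hu.2.2⟩
    rw [Finset.mem_union, Finset.mem_image, Finset.mem_image]
    rcases Int.natAbs_eq u with h | h
    · left
      exact ⟨_, h1, h.symm⟩
    · right
      exact ⟨_, h1, h.symm⟩
  calc _ ≤ ∑ u ∈ F.image (fun q : ℕ => (q : ℤ)) ∪ F.image (fun q : ℕ => -(q : ℤ)),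
        Nat.gcd u.natAbs s := Finset.sum_le_sum_of_subset hsub
    _ ≤ ∑ u ∈ F.image (fun q : ℕ => (q : ℤ)), Nat.gcd u.natAbs s +
        ∑ u ∈ F.image (fun q : ℕ => -(q : ℤ)), Nat.gcd u.natAbs s := by
        rw [← Finset.sum_union_inter]
        exact Nat.le_add_right _ _
    _ = 2 * ∑ q ∈ F, Nat.gcd q s := by
        rw [Finset.sum_image (fun a _ b _ h => by simpa using h),
          Finset.sum_image (fun a _ b _ h => by simpa using h), two_mul]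
        simp only [Int.natAbs_neg, Int.natAbs_natCast]

/-- the pairs `(y₁, y₂)` for given radical `s` of `y₀` -/
theorem pairs {d : ℕ} (hd : 1 ≤ d) {CR CO CD η : ℝ} (hη : 0 < η)
    (h5 : ∀ k Y : ℕ, 1 ≤ Y →
      (#{q ∈ Finset.Icc 1 Y | ∏ p ∈ q.primeFactors, p = k} : ℝ) ≤ CR * (Y : ℝ) ^ η)
    (h6 : T_ROOT) (h8 : T_GS) (hCR : 1 ≤ CR)
    (hO : ∀ n : ℕ, 1 ≤ n → (d : ℝ) ^ #n.primeFactors ≤ CO * (n : ℝ) ^ η)
    (hD : ∀ n : ℕ, 1 ≤ n → (#n.divisors : ℝ) ≤ CD * (n : ℝ) ^ η) (hCO : 1 ≤ CO) (hCD : 1 ≤ CD)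
    {φ : Polynomial ℤ} (hφ : φ.natDegree ≤ d) (hφ0 : φ ≠ 0) {s Y : ℕ} (hs : Squarefree s)
    (hsY : s ≤ Y) (hY : 1 ≤ Y) :
    ((∑ u ∈ Finset.Icc (-(Y : ℤ)) Y with u ≠ 0 ∧ rd u ≤ s,
      #{v ∈ Finset.Icc (-(Y : ℤ)) Y | (s : ℤ) ∣ hv d φ u v} : ℕ) : ℝ) ≤
    8 * CR * CO * CD * φ.content.natAbs * ((Y : ℝ) * ((Y : ℝ) ^ η) ^ 3) := by
  have hs1 : 1 ≤ s := Nat.pos_of_ne_zero hs.ne_zero
  obtain ⟨c, hc⟩ : ∃ c : ℕ, c = φ.content.natAbs := ⟨_, rfl⟩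
  have hc1 : 1 ≤ c := by
    rw [hc, Nat.one_le_iff_ne_zero, Int.natAbs_ne_zero]
    rw [Ne, Polynomial.content_eq_zero_iff]
    exact hφ0
  rw [← hc]
  obtain ⟨I, hI⟩ : ∃ I : Finset ℤ, I = {u ∈ Finset.Icc (-(Y : ℤ)) Y | u ≠ 0 ∧ rd u ≤ s} :=
    ⟨_, rfl⟩
  obtain ⟨W, hW⟩ : ∃ W : ℕ, W = ∑ u ∈ I,
    #{v ∈ Finset.Icc (-(Y : ℤ)) Y | (s : ℤ) ∣ hv d φ u v} := ⟨_, rfl⟩
  rw [← hI, ← hW]
  have h1 : W * s ≤ d ^ #s.primeFactors * (c * (4 * Y)) * ∑ u ∈ I, Nat.gcd u.natAbs s := by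
    rw [hW, Finset.sum_mul, Finset.mul_sum]
    refine Finset.sum_le_sum fun u _ => ?_
    refine (h6 d φ s u Y hd hφ hs).trans ?_
    rw [← hc]
    have h2 : Nat.gcd c s ≤ c := Nat.gcd_le_left _ hc1
    have h3 : 2 * Y + 1 + s ≤ 4 * Y := by omega
    calc d ^ #s.primeFactors * (Nat.gcd u.natAbs s * Nat.gcd c s) * (2 * Y + 1 + s)
        ≤ d ^ #s.primeFactors * (Nat.gcd u.natAbs s * c) * (4 * Y) :=
          Nat.mul_le_mul (Nat.mul_le_mul_left _ (Nat.mul_le_mul_left _ h2)) h3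
      _ = d ^ #s.primeFactors * (c * (4 * Y)) * Nat.gcd u.natAbs s := by ring
  have h2 : ∑ u ∈ I, Nat.gcd u.natAbs s ≤ 2 * ∑ q ∈ Finset.Icc 1 Y with
      ∏ p ∈ q.primeFactors, p ≤ s, Nat.gcd q s := by
    rw [hI]
    exact sum_int s Y
  have h3 := sum_gcd h5 h8 hCR hs hY
  obtain ⟨Z, hZ⟩ : ∃ Z : ℕ, Z = ∑ q ∈ Finset.Icc 1 Y with
      ∏ p ∈ q.primeFactors, p ≤ s, Nat.gcd q s := ⟨_, rfl⟩
  rw [← hZ] at h2 h3
  have hsR : (1 : ℝ) ≤ s := by exact_mod_cast hs1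
  have hYR : (1 : ℝ) ≤ Y := by exact_mod_cast hY
  have hsη : (s : ℝ) ^ η ≤ (Y : ℝ) ^ η :=
    Real.rpow_le_rpow (by positivity) (by exact_mod_cast hsY) hη.le
  have hO1 : (d : ℝ) ^ #s.primeFactors ≤ CO * (Y : ℝ) ^ η :=
    (hO s hs1).trans (mul_le_mul_of_nonneg_left hsη (by positivity))
  have hD1 : (#s.divisors : ℝ) ≤ CD * (Y : ℝ) ^ η :=
    (hD s hs1).trans (mul_le_mul_of_nonneg_left hsη (by positivity))
  obtain ⟨t, ht⟩ : ∃ t : ℝ, t = (Y : ℝ) ^ η := ⟨_, rfl⟩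
  have ht0 : 0 ≤ t := by rw [ht]; positivity
  rw [← ht] at h3 hO1 hD1 ⊢
  have h4 : (W : ℝ) * s ≤ (CO * t) * (c * (4 * Y)) * (2 * (CR * t * (s * (CD * t)))) := by
    calc (W : ℝ) * s ≤ (d : ℝ) ^ #s.primeFactors * (c * (4 * Y)) *
          ((∑ u ∈ I, Nat.gcd u.natAbs s : ℕ) : ℝ) := by exact_mod_cast h1
      _ ≤ (CO * t) * (c * (4 * Y)) * (2 * (CR * t * (s * (CD * t)))) := by
          refine mul_le_mul (mul_le_mul_of_nonneg_right hO1 (by positivity)) ?_ (by positivity)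
            (by positivity)
          calc ((∑ u ∈ I, Nat.gcd u.natAbs s : ℕ) : ℝ) ≤ ((2 * Z : ℕ) : ℝ) := by exact_mod_cast h2
            _ = 2 * (Z : ℝ) := by push_cast; ring
            _ ≤ 2 * (CR * t * (s * #s.divisors)) := by linarith
            _ ≤ 2 * (CR * t * (s * (CD * t))) := by
                refine mul_le_mul_of_nonneg_left ?_ (by norm_num)
                refine mul_le_mul_of_nonneg_left ?_ (by positivity)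
                exact mul_le_mul_of_nonneg_left hD1 (by positivity)
  have h5' : (W : ℝ) * s ≤ (8 * CR * CO * CD * c * (Y * t ^ 3)) * s := by
    refine h4.trans (le_of_eq ?_)
    ring
  exact le_of_mul_le_mul_right h5' (by linarith)

/-- the values of `y₀` -/
theorem card_D0 {CD η : ℝ} (hD : ∀ n : ℕ, 1 ≤ n → (#n.divisors : ℝ) ≤ CD * (n : ℝ) ^ η)
    {r : ℤ} (hr : r ≠ 0) (Y : ℕ) : (#{q ∈ Finset.Icc (-(Y : ℤ)) Y | q ≠ 0 ∧ q ∣ r} : ℝ) ≤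
    2 * (CD * (r.natAbs : ℝ) ^ η) := by
  classical
  have hsub : {q ∈ Finset.Icc (-(Y : ℤ)) Y | q ≠ 0 ∧ q ∣ r} ⊆
      r.natAbs.divisors.image (fun q : ℕ => (q : ℤ)) ∪
      r.natAbs.divisors.image (fun q : ℕ => -(q : ℤ)) := by
    intro u hu
    rw [Finset.mem_filter] at hu
    have h1 : u.natAbs ∈ r.natAbs.divisors := by
      rw [Nat.mem_divisors]
      exact ⟨Int.natAbs_dvd_natAbs.2 hu.2.2, Int.natAbs_ne_zero.2 hr⟩
    rw [Finset.mem_union, Finset.mem_image, Finset.mem_image]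
    rcases Int.natAbs_eq u with h | h
    · left
      exact ⟨_, h1, h.symm⟩
    · right
      exact ⟨_, h1, h.symm⟩
  have h1 : #{q ∈ Finset.Icc (-(Y : ℤ)) Y | q ≠ 0 ∧ q ∣ r} ≤ 2 * #r.natAbs.divisors := by
    refine (Finset.card_le_card hsub).trans ((Finset.card_union_le _ _).trans ?_)
    have h2 := Finset.card_image_le (s := r.natAbs.divisors) (f := fun q : ℕ => (q : ℤ))
    have h3 := Finset.card_image_le (s := r.natAbs.divisors) (f := fun q : ℕ => -(q : ℤ))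
    omega
  have h2 := hD r.natAbs (Nat.pos_of_ne_zero (Int.natAbs_ne_zero.2 hr))
  calc (#{q ∈ Finset.Icc (-(Y : ℤ)) Y | q ≠ 0 ∧ q ∣ r} : ℝ) ≤ ((2 * #r.natAbs.divisors : ℕ) : ℝ) :=
        by exact_mod_cast h1
    _ = 2 * (#r.natAbs.divisors : ℝ) := by push_cast; ring
    _ ≤ _ := by linarith

/-- the set of the points is covered -/
theorem cover {d : ℕ} (hd : 2 ≤ d) (h1 : T_RES) {φ ψ : Polynomial ℤ} (hφ : φ.natDegree ≤ d)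
    (hψ : ψ.natDegree ≤ d - 1) (Y : ℕ) (A : Finset ℤ)
    (hA : A = {q ∈ Finset.Icc (-(Y : ℤ)) Y | q ≠ 0 ∧ q ∣ φ.resultant ψ d (d - 1)}) :
    ({y : Fin 3 → ℤ | nm y ≤ Y ∧ Prim y ∧ y 0 ≠ 0 ∧ y 1 ≠ 0 ∧ rd (y 1) ≤ rd (y 0) ∧
      y 0 ∣ hv d φ (y 1) (y 2) ∧ y 0 ∣ hv (d - 1) ψ (y 1) (y 2)} : Set _).ncard ≤
    ∑ q ∈ A, ∑ u ∈ Finset.Icc (-(Y : ℤ)) Y with u ≠ 0 ∧ rd u ≤ rd q,
      #{v ∈ Finset.Icc (-(Y : ℤ)) Y | ((rd q : ℕ) : ℤ) ∣ hv d φ u v} := by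
  classical
  obtain ⟨P, hP⟩ : ∃ P : Finset (Fin 3 → ℤ), P = A.biUnion fun q =>
    ({u ∈ Finset.Icc (-(Y : ℤ)) Y | u ≠ 0 ∧ rd u ≤ rd q}).biUnion fun u =>
      ({v ∈ Finset.Icc (-(Y : ℤ)) Y | ((rd q : ℕ) : ℤ) ∣ hv d φ u v}).image
        fun v => ![q, u, v] := ⟨_, rfl⟩
  have hcard : #P ≤ ∑ q ∈ A, ∑ u ∈ Finset.Icc (-(Y : ℤ)) Y with u ≠ 0 ∧ rd u ≤ rd q,
      #{v ∈ Finset.Icc (-(Y : ℤ)) Y | ((rd q : ℕ) : ℤ) ∣ hv d φ u v} := by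
    rw [hP]
    refine Finset.card_biUnion_le.trans (Finset.sum_le_sum fun q _ => ?_)
    refine Finset.card_biUnion_le.trans (Finset.sum_le_sum fun u _ => ?_)
    exact Finset.card_image_le
  refine le_trans ?_ hcard
  rw [← Set.ncard_coe_finset]
  refine Set.ncard_le_ncard ?_ (Finset.finite_toSet _)
  rintro y ⟨hn, hpr, h00, h10, hrd, hdv, hdv'⟩
  have hle := nm_le_iff.1 hn
  have hmem : ∀ i, y i ∈ Finset.Icc (-(Y : ℤ)) Y := fun i => by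
    rw [Finset.mem_Icc, ← abs_le]
    exact hle i
  have hres : y 0 ∣ φ.resultant ψ d (d - 1) := by
    refine h1 d (d - 1) φ ψ (y 0) (y 1) (y 2) (by omega) (by omega) hφ hψ hdv hdv' ?_
    intro t ht0 ht1 ht2
    have h2 : t ∣ Finset.univ.gcd y := by
      refine Finset.dvd_gcd fun i _ => ?_
      fin_cases i
      · exact ht0
      · exact ht1
      · exact ht2
    rw [show Finset.univ.gcd y = 1 from hpr] at h2
    exact isUnit_of_dvd_one h2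
  have hy : y = ![y 0, y 1, y 2] := by
    ext i
    fin_cases i <;> rfl
  rw [Finset.mem_coe, hP, Finset.mem_biUnion]
  refine ⟨y 0, ?_, ?_⟩
  · rw [hA, Finset.mem_filter]
    exact ⟨hmem 0, h00, hres⟩
  · rw [Finset.mem_biUnion]
    refine ⟨y 1, ?_, ?_⟩
    · rw [Finset.mem_filter]
      exact ⟨hmem 1, h10, hrd⟩
    · rw [Finset.mem_image]
      refine ⟨y 2, ?_, hy.symm⟩
      rw [Finset.mem_filter]
      refine ⟨hmem 2, dvd_trans ?_ hdv⟩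
      exact Int.natCast_dvd.2 (rd_dvd (y 0))

/-- one pair -/
theorem one_pair {d : ℕ} (hd : 2 ≤ d) {CR CO CD η : ℝ} (hη : 0 < η) (h1 : T_RES) (h2 : T_RSZ)
    (h5 : ∀ k Y : ℕ, 1 ≤ Y →
      (#{q ∈ Finset.Icc 1 Y | ∏ p ∈ q.primeFactors, p = k} : ℝ) ≤ CR * (Y : ℝ) ^ η)
    (h6 : T_ROOT) (h8 : T_GS) (hCR : 1 ≤ CR)
    (hO : ∀ n : ℕ, 1 ≤ n → (d : ℝ) ^ #n.primeFactors ≤ CO * (n : ℝ) ^ η)
    (hD : ∀ n : ℕ, 1 ≤ n → (#n.divisors : ℝ) ≤ CD * (n : ℝ) ^ η) (hCO : 1 ≤ CO) (hCD : 1 ≤ CD)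
    {φ ψ : Polynomial ℤ} {R Y : ℕ} (hR : 1 ≤ R) (hφ : φ ∈ PB d R) (hψ : ψ ∈ PB (d - 1) R)
    (hr : φ.resultant ψ d (d - 1) ≠ 0) (hY : 1 ≤ Y) :
    ((({y : Fin 3 → ℤ | nm y ≤ Y ∧ Prim y ∧ y 0 ≠ 0 ∧ y 1 ≠ 0 ∧ rd (y 1) ≤ rd (y 0) ∧
      y 0 ∣ hv d φ (y 1) (y 2) ∧ y 0 ∣ hv (d - 1) ψ (y 1) (y 2)} : Set _).ncard : ℕ) : ℝ) ≤
    (16 * CR * CO * CD ^ 2 * ((2 * d - 1).factorial : ℝ) ^ η) * φ.content.natAbs *
      (((R : ℝ) ^ η) ^ (2 * d) * (Y * ((Y : ℝ) ^ η) ^ 3)) := by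
  have hφ1 := mem_PB.1 hφ
  have hψ1 := mem_PB.1 hψ
  have hφ0 : φ ≠ 0 := by
    rintro rfl
    rw [Polynomial.resultant_zero_left, zero_pow (by omega), zero_mul] at hr
    exact hr rfl
  obtain ⟨A, hA⟩ : ∃ A : Finset ℤ,
    A = {q ∈ Finset.Icc (-(Y : ℤ)) Y | q ≠ 0 ∧ q ∣ φ.resultant ψ d (d - 1)} := ⟨_, rfl⟩
  have hcov := cover hd h1 hφ1.1 hψ1.1 Y A hA
  have hAc : (#A : ℝ) ≤ 2 * (CD * ((φ.resultant ψ d (d - 1)).natAbs : ℝ) ^ η) := by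
    rw [hA]
    exact card_D0 hD hr Y
  obtain ⟨B, hB⟩ : ∃ B : ℝ, B = 8 * CR * CO * CD * φ.content.natAbs *
    ((Y : ℝ) * ((Y : ℝ) ^ η) ^ 3) := ⟨_, rfl⟩
  have hB0 : 0 ≤ B := by rw [hB]; positivity
  have hin : ∀ q ∈ A, ((∑ u ∈ Finset.Icc (-(Y : ℤ)) Y with u ≠ 0 ∧ rd u ≤ rd q,
      #{v ∈ Finset.Icc (-(Y : ℤ)) Y | ((rd q : ℕ) : ℤ) ∣ hv d φ u v} : ℕ) : ℝ) ≤ B := by
    intro q hq
    rw [hA, Finset.mem_filter, Finset.mem_Icc] at hq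
    rw [hB]
    refine pairs (by omega) hη h5 h6 h8 hCR hO hD hCO hCD hφ1.1 hφ0 (rd_sq q) ?_ hY
    have h3 := Nat.le_of_dvd (Int.natAbs_pos.2 hq.2.1) (rd_dvd q)
    omega
  have hsz : (φ.resultant ψ d (d - 1)).natAbs ≤ (2 * d - 1).factorial * R ^ (2 * d - 1) := by
    have h3 := h2 d (d - 1) R φ ψ hφ1.2 hψ1.2
    rw [show d + (d - 1) = 2 * d - 1 by omega, Int.abs_eq_natAbs] at h3
    exact_mod_cast h3
  have hRR : (1 : ℝ) ≤ R := by exact_mod_cast hR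
  have hszR : ((φ.resultant ψ d (d - 1)).natAbs : ℝ) ^ η ≤
      ((2 * d - 1).factorial : ℝ) ^ η * ((R : ℝ) ^ η) ^ (2 * d) := by
    have h3 : ((φ.resultant ψ d (d - 1)).natAbs : ℝ) ≤
        ((2 * d - 1).factorial : ℝ) * (R : ℝ) ^ (2 * d) := by
      calc ((φ.resultant ψ d (d - 1)).natAbs : ℝ) ≤
            ((2 * d - 1).factorial : ℝ) * (R : ℝ) ^ (2 * d - 1) := by exact_mod_cast hsz
        _ ≤ _ := by
            refine mul_le_mul_of_nonneg_left ?_ (by positivity)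
            exact pow_le_pow_right₀ hRR (by omega)
    refine (Real.rpow_le_rpow (by positivity) h3 hη.le).trans (le_of_eq ?_)
    rw [Real.mul_rpow (by positivity) (by positivity), ← Real.rpow_natCast, ← Real.rpow_mul
      (by positivity), mul_comm ((2 * d : ℕ) : ℝ) η, Real.rpow_mul (by positivity),
      Real.rpow_natCast]
  calc ((({y : Fin 3 → ℤ | nm y ≤ Y ∧ Prim y ∧ y 0 ≠ 0 ∧ y 1 ≠ 0 ∧ rd (y 1) ≤ rd (y 0) ∧
      y 0 ∣ hv d φ (y 1) (y 2) ∧ y 0 ∣ hv (d - 1) ψ (y 1) (y 2)} : Set _).ncard : ℕ) : ℝ)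
      ≤ ((∑ q ∈ A, ∑ u ∈ Finset.Icc (-(Y : ℤ)) Y with u ≠ 0 ∧ rd u ≤ rd q,
      #{v ∈ Finset.Icc (-(Y : ℤ)) Y | ((rd q : ℕ) : ℤ) ∣ hv d φ u v} : ℕ) : ℝ) := by
        exact_mod_cast hcov
    _ = ∑ q ∈ A, ((∑ u ∈ Finset.Icc (-(Y : ℤ)) Y with u ≠ 0 ∧ rd u ≤ rd q,
      #{v ∈ Finset.Icc (-(Y : ℤ)) Y | ((rd q : ℕ) : ℤ) ∣ hv d φ u v} : ℕ) : ℝ) := by
        rw [Nat.cast_sum]
    _ ≤ ∑ q ∈ A, B := Finset.sum_le_sum hin
    _ = #A * B := by rw [Finset.sum_const, nsmul_eq_mul]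
    _ ≤ 2 * (CD * (((2 * d - 1).factorial : ℝ) ^ η * ((R : ℝ) ^ η) ^ (2 * d))) * B := by
        refine mul_le_mul_of_nonneg_right (hAc.trans ?_) hB0
        refine mul_le_mul_of_nonneg_left ?_ (by norm_num)
        exact mul_le_mul_of_nonneg_left hszR (by positivity)
    _ = _ := by
        rw [hB]
        ring

theorem pf_SUM (h1 : T_RES) (h2 : T_RSZ) (h3 : T_DB) (h4 : T_OM) (h5 : T_RAD) (h6 : T_ROOT)
    (h7 : T_CT) (h8 : T_GS) : T_SUM := by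
  classical
  intro d ε hd hε
  obtain ⟨η, hη⟩ : ∃ η : ℝ, η = ε / (2 * d + 3) := ⟨_, rfl⟩
  have hd0 : (0 : ℝ) < 2 * d + 3 := by positivity
  have hη0 : 0 < η := by rw [hη]; positivity
  have hηε : η * (2 * d + 3) = ε := by
    rw [hη]
    field_simp
  obtain ⟨CD, hCD, hD⟩ := h3 η hη0
  obtain ⟨CO, hCO, hO⟩ := h4 d η hη0
  obtain ⟨CR, hCR, hRd⟩ := h5 η hη0
  obtain ⟨CT, hCT⟩ := h7 d hd
  obtain ⟨K, hK⟩ : ∃ K : ℝ, K = 16 * CR * CO * CD ^ 2 * ((2 * d - 1).factorial : ℝ) ^ η :=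
    ⟨_, rfl⟩
  have hK0 : 0 ≤ K := by rw [hK]; positivity
  refine ⟨3 ^ d * K * CT + 1, by
    have : 0 ≤ 3 ^ d * K * CT := by positivity
    linarith, ?_⟩
  intro R Y hR hY
  have hRR : (1 : ℝ) ≤ R := by exact_mod_cast hR
  have hYR : (1 : ℝ) ≤ Y := by exact_mod_cast hY
  obtain ⟨g, hg⟩ : ∃ g : Polynomial ℤ → Polynomial ℤ → ℕ, ∀ φ ψ, g φ ψ =
    ({y : Fin 3 → ℤ | nm y ≤ Y ∧ Prim y ∧ y 0 ≠ 0 ∧ y 1 ≠ 0 ∧ rd (y 1) ≤ rd (y 0) ∧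
      y 0 ∣ hv d φ (y 1) (y 2) ∧ y 0 ∣ hv (d - 1) ψ (y 1) (y 2)} : Set _).ncard :=
    ⟨_, fun _ _ => rfl⟩
  simp only [← hg]
  obtain ⟨M, hM⟩ : ∃ M : ℝ, M = ((R : ℝ) ^ η) ^ (2 * d) * (Y * ((Y : ℝ) ^ η) ^ 3) := ⟨_, rfl⟩
  have hM0 : 0 ≤ M := by rw [hM]; positivity
  have hone : ∀ φ ∈ PB d R, ((∑ ψ ∈ PB (d - 1) R with φ.resultant ψ d (d - 1) ≠ 0, g φ ψ : ℕ) : ℝ)
      ≤ (3 * (R : ℝ)) ^ d * (K * (if φ ≠ 0 then φ.content.natAbs else 0 : ℕ) * M) := by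
    intro φ hφ
    by_cases hφ0 : φ = 0
    · rw [if_neg (not_not.2 hφ0), Finset.sum_eq_zero]
      · simp
      · intro ψ hψ
        rw [Finset.mem_filter] at hψ
        exfalso
        apply hψ.2
        rw [hφ0, Polynomial.resultant_zero_left, zero_pow (by omega), zero_mul]
    · rw [if_pos hφ0]
      have h9 : ∀ ψ ∈ {ψ ∈ PB (d - 1) R | φ.resultant ψ d (d - 1) ≠ 0}, (g φ ψ : ℝ) ≤
          K * φ.content.natAbs * M := by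
        intro ψ hψ
        rw [Finset.mem_filter] at hψ
        rw [hg, hK, hM]
        exact one_pair hd hη0 h1 h2 hRd h6 h8 hCR hO hD hCO hCD hR hφ hψ.1 hψ.2 hY
      rw [Nat.cast_sum]
      refine (Finset.sum_le_card_nsmul _ _ _ h9).trans ?_
      rw [nsmul_eq_mul]
      refine mul_le_mul_of_nonneg_right ?_ (by positivity)
      have h10 : #{ψ ∈ PB (d - 1) R | φ.resultant ψ d (d - 1) ≠ 0} ≤ (3 * R) ^ d := by
        refine (Finset.card_filter_le _ _).trans ?_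
        rw [card_PB, show d - 1 + 1 = d by omega]
        exact Nat.pow_le_pow_left (by omega) _
      exact_mod_cast h10
  rw [Nat.cast_sum]
  refine (Finset.sum_le_sum hone).trans ?_
  have hct : ((∑ φ ∈ PB d R, (if φ ≠ 0 then φ.content.natAbs else 0 : ℕ) : ℕ) : ℝ) ≤
      CT * (R : ℝ) ^ (d + 1) := by
    rw [← Finset.sum_filter]
    exact_mod_cast hCT R hR
  have hMle : M ≤ Y * ((R : ℝ) * Y) ^ ε := by
    have h11 : ((R : ℝ) ^ η) ^ (2 * d) ≤ (R : ℝ) ^ ε := by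
      rw [← Real.rpow_natCast, ← Real.rpow_mul (by positivity)]
      refine Real.rpow_le_rpow_of_exponent_le hRR ?_
      push_cast
      nlinarith
    have h12 : ((Y : ℝ) ^ η) ^ 3 ≤ (Y : ℝ) ^ ε := by
      rw [← Real.rpow_natCast, ← Real.rpow_mul (by positivity)]
      refine Real.rpow_le_rpow_of_exponent_le hYR ?_
      push_cast
      have : (0 : ℝ) ≤ d := by positivity
      nlinarith
    rw [hM, Real.mul_rpow (by positivity) (by positivity)]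
    calc ((R : ℝ) ^ η) ^ (2 * d) * (Y * ((Y : ℝ) ^ η) ^ 3) ≤ (R : ℝ) ^ ε * (Y * (Y : ℝ) ^ ε) :=
          mul_le_mul h11 (mul_le_mul_of_nonneg_left h12 (by positivity)) (by positivity)
            (by positivity)
      _ = _ := by ring
  calc ∑ φ ∈ PB d R, (3 * (R : ℝ)) ^ d * (K * (if φ ≠ 0 then φ.content.natAbs else 0 : ℕ) * M)
      = (3 * (R : ℝ)) ^ d * (K * ((∑ φ ∈ PB d R, (if φ ≠ 0 then φ.content.natAbs else 0 : ℕ) : ℕ)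
        : ℝ) * M) := by
        rw [Nat.cast_sum, Finset.mul_sum, Finset.sum_mul, Finset.mul_sum]
    _ ≤ (3 * (R : ℝ)) ^ d * (K * (CT * (R : ℝ) ^ (d + 1)) * (Y * ((R : ℝ) * Y) ^ ε)) := by
        refine mul_le_mul_of_nonneg_left ?_ (by positivity)
        exact mul_le_mul (mul_le_mul_of_nonneg_left hct hK0) hMle hM0 (by positivity)
    _ = (3 ^ d * K * CT) * ((R : ℝ) ^ (2 * d + 1) * Y * ((R : ℝ) * Y) ^ ε) := by
        rw [mul_pow, show 2 * d + 1 = d + (d + 1) by omega, pow_add (R : ℝ) d (d + 1)]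
        ring
    _ ≤ (3 ^ d * K * CT + 1) * ((R : ℝ) ^ (2 * d + 1) * Y * ((R : ℝ) * Y) ^ ε) := by
        refine mul_le_mul_of_nonneg_right (by linarith) (by positivity)

end Pool.Agent.H90.PCSUM
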